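import Pool.Agent.Helper31_CP.Fin
import Pool.Agent.Helper31_CP.Fm

set_option autoImplicit false

namespace Pool.Agent.Results.MP_c84763_mp.FullAnswer

open MeasureTheory Filter Topology
open scoped ENNReal

noncomputable section

/-- `ℝ^d` with the Euclidean norm. -/
abbrev EE (d : ℕ) := EuclideanSpace ℝ (Fin d)

/-- The Hilbert space `L²(α; ℂ)` of classes of square integrable functions. -/
def LTwo (α : Type) [MeasureSpace α] : Type := Lp ℂ 2 (volume : Measure α)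

instance instLTwoGroup (α : Type) [MeasureSpace α] : AddCommGroup (LTwo α) :=
  inferInstanceAs (AddCommGroup (Lp ℂ 2 (volume : Measure α)))

instance instLTwoModule (α : Type) [MeasureSpace α] : Module ℂ (LTwo α) :=
  inferInstanceAs (Module ℂ (Lp ℂ 2 (volume : Measure α)))

/-- A function representing a class in `L²(α; ℂ)`. -/
def LTwo.fn {α : Type} [MeasureSpace α] (u : LTwo α) : α → ℂ :=
  AEEqFun.cast (Subtype.val (p := fun f => f ∈ Lp ℂ 2 (volume : Measure α)) u)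

/-- The Hilbert space `L²(ℝ^d; ℂ)`. -/
def L2 (d : ℕ) : Type := LTwo (EE d)

instance instL2Group (d : ℕ) : AddCommGroup (L2 d) := instLTwoGroup (EE d)

instance instL2Module (d : ℕ) : Module ℂ (L2 d) := instLTwoModule (EE d)

/-- A function on `ℝ^d` representing a class in `L²(ℝ^d; ℂ)`. -/
def L2.fn {d : ℕ} (u : L2 d) : EE d → ℂ := LTwo.fn (α := EE d) u

/-- Test functions: smooth and compactly supported. -/
def IsTestFn {d : ℕ} (φ : EE d → ℂ) : Prop := ContDiff ℝ (⊤ : ℕ∞) φ ∧ HasCompactSupport φ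

/-- The classical derivative `∂_i φ`. -/
def der {d : ℕ} (i : Fin d) (φ : EE d → ℂ) (x : EE d) : ℂ :=
  fderiv ℝ φ x (EuclideanSpace.single i 1)

/-- `g` is the weak derivative `∂_i u`. -/
def IsWeakDer {d : ℕ} (i : Fin d) (u g : EE d → ℂ) : Prop :=
  ∀ φ : EE d → ℂ, IsTestFn φ → ∫ x, u x * der i φ x = - ∫ x, g x * φ x

/-- `p` is the gradient of `u`, so `u ∈ H¹(ℝ^d)`. -/
def IsGrad {d : ℕ} (u : L2 d) (p : Fin d → L2 d) : Prop := ∀ i, IsWeakDer i u.fn (p i).fn

/-- `∫ |V||u|² < ∞`. -/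
def FinPot {d : ℕ} (V : EE d → ℂ) (u : L2 d) : Prop :=
  Integrable (fun x => ‖V x‖ * ‖u.fn x‖ ^ 2) volume

/-- `∫ f conj g`. -/
def pairing {d : ℕ} (f g : EE d → ℂ) : ℂ := ∫ x, f x * (starRingEnd ℂ) (g x)

/-- `u ∈ D(H)` and `H u = f`, where `H = -ħ²Δ + V` is the operator in `L²(ℝ^d)` associated with the
sesquilinear form `ħ² ∫ ∇u · conj ∇v + ∫ V u conj v` with form domain
`{u ∈ H¹(ℝ^d) : ∫ |V||u|² < ∞}`. -/
def IsHu {d : ℕ} (ħ : ℝ) (V : EE d → ℂ) (u f : L2 d) : Prop :=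
  FinPot V u ∧ ∃ p : Fin d → L2 d, IsGrad u p ∧
    ∀ (v : L2 d) (q : Fin d → L2 d), FinPot V v → IsGrad v q →
      ((ħ ^ 2 : ℝ) : ℂ) * (∑ i, pairing (p i).fn (q i).fn) +
        pairing (fun x => V x * u.fn x) v.fn = pairing f.fn v.fn

/-- `u` is a generalised eigenvector for `E` (or zero): `(H - E)^n u = 0` for some `n`, i.e. there is
a chain `u = c 0, c 1, ..., c n = 0` with `(H - E) (c j) = c (j + 1)`. -/
def IsGen {d : ℕ} (ħ : ℝ) (V : EE d → ℂ) (E : ℂ) (u : L2 d) : Prop :=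
  ∃ (n : ℕ) (c : ℕ → L2 d), c 0 = u ∧ c n = 0 ∧ ∀ j, j < n → IsHu ħ V (c j) (E • c j + c (j + 1))

/-- The generalised eigenspace of `E`. -/
def genSpace {d : ℕ} (ħ : ℝ) (V : EE d → ℂ) (E : ℂ) : Submodule ℂ (L2 d) :=
  Submodule.span ℂ {u | IsGen ħ V E u}

/-- The algebraic multiplicity of `E` (zero if `E` is not an eigenvalue). -/
def algMult {d : ℕ} (ħ : ℝ) (V : EE d → ℂ) (E : ℂ) : ℕ :=
  Module.finrank ℂ (genSpace ħ V E)

/-- The half line `[0, ∞)` in the complex plane. -/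
def halfLine : Set ℂ := {z | 0 ≤ z.re ∧ z.im = 0}

/-- `|E|^(-σ) dist(E, [0,∞))^(γ+σ)`. -/
def weight (γ σ : ℝ) (E : ℂ) : ℝ := ‖E‖ ^ (-σ) * (Metric.infDist E halfLine) ^ (γ + σ)

/-- `S_{γ,σ}(V, ħ)`: the sum of `|E|^(-σ) dist(E, [0,∞))^(γ+σ)` over the eigenvalues `E` of
`-ħ²Δ + V` outside `[0,∞)`, counted with algebraic multiplicity. -/
def eigSum {d : ℕ} (γ σ : ℝ) (V : EE d → ℂ) (ħ : ℝ) : ℝ≥0∞ :=
  ∑' E : ℂ, halfLineᶜ.indicator (fun E => (algMult ħ V E : ℝ≥0∞) * ENNReal.ofReal (weight γ σ E)) E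

/-- The potential `V(x) = i - log (1 - |x|)` for `|x| < 1`, `V(x) = 0` for `|x| ≥ 1`. -/
def pot (d : ℕ) (x : EE d) : ℂ :=
  if ‖x‖ < 1 then Complex.I - (Real.log (1 - ‖x‖) : ℂ) else 0

theorem pot_eq (d : ℕ) : pot d = (Helper31_CP.Vpot : EE d → ℂ) := by
  funext x
  unfold pot Helper31_CP.Vpot Helper31_CP.Ulog
  by_cases h : ‖x‖ < 1
  · have h1 : x ∈ Metric.ball (0 : EE d) 1 := by simpa using h
    rw [if_pos h, if_pos h, Set.indicator_of_mem h1]
    push_cast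
    ring
  · have h1 : x ∉ Metric.ball (0 : EE d) 1 := by simpa using h
    rw [if_neg h, if_neg h, Set.indicator_of_notMem h1]
    simp

theorem gen_eq {d : ℕ} (ħ : ℝ) (V : EE d → ℂ) (E : ℂ) :
    genSpace ħ V E = Helper31_CP.gen (Helper31_CP.IsHu ħ V) E := rfl

/-- Full positive answer, with one explicit potential for all exponents: for every dimension
`d ≥ 1` (the question asks for `d ≥ 2`) the potential `V = pot d` vanishes outside the unit ball,
has `Re V ≥ 0` and `0 ≤ Im V ≤ 1`, lies in `L^p(ℝ^d)` for all `0 < p < ∞` (in particular for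
`p = γ + d/2`), all its eigenvalues outside `[0,∞)` have finite algebraic multiplicity, and
`ħ^d S_{γ,σ}(V, ħ) → +∞` as `ħ → 0`, for all `γ > 0` and all `0 ≤ σ ≤ d/2`. -/
theorem result (d : ℕ) (hd : 1 ≤ d) :
    Measurable (pot d) ∧ (∀ x, 1 ≤ ‖x‖ → pot d x = 0) ∧
    (∀ x, 0 ≤ (pot d x).re ∧ 0 ≤ (pot d x).im ∧ (pot d x).im ≤ 1) ∧
    (∀ p : ℝ, 0 < p → MemLp (pot d) (ENNReal.ofReal p) volume) ∧
    (∀ ħ : ℝ, 0 < ħ → ∀ E : ℂ, E ∉ halfLine → Module.Finite ℂ (genSpace ħ (pot d) E)) ∧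
    ∀ γ σ : ℝ, 0 < γ → 0 ≤ σ → σ ≤ (d : ℝ) / 2 →
      Tendsto (fun ħ : ℝ => ENNReal.ofReal (ħ ^ d) * eigSum γ σ (pot d) ħ) (𝓝[>] 0) (𝓝 ⊤) := by
  obtain ⟨hUm, hU0, hU1, hUM, hUp⟩ := Helper31_CP.Ulog_props d hd
  have hfin : ∀ ħ : ℝ, 0 < ħ → ∀ E : ℂ, E ∉ halfLine →
      Module.Finite ℂ (genSpace ħ (pot d) E) := by
    intro ħ hħ E hE
    rw [pot_eq, gen_eq]
    exact Helper31_CP.finite_mult d hd ħ hħ E hE
  refine ⟨?_, ?_, ?_, ?_, hfin, ?_⟩
  · rw [pot_eq]
    exact Helper31_CP.Vpot_meas hUm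
  · intro x hx
    unfold pot
    rw [if_neg (by linarith)]
  · intro x
    unfold pot
    by_cases h : ‖x‖ < 1
    · rw [if_pos h]
      have h1 : Real.log (1 - ‖x‖) ≤ 0 :=
        Real.log_nonpos (by linarith) (by linarith [norm_nonneg x])
      simp [h1]
    · rw [if_neg h]
      simp
  · intro p hp
    rw [pot_eq]
    have hp0 : ENNReal.ofReal p ≠ 0 := by simpa using hp
    have hfinB : volume (Metric.ball (0 : EE d) 1) ≠ ⊤ := measure_ball_lt_top.ne
    refine MemLp.add ?_ ?_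
    · have h1 : AEStronglyMeasurable (fun x : EE d => ((Helper31_CP.Ulog x : ℝ) : ℂ)) volume :=
        (Complex.measurable_ofReal.comp hUm).aestronglyMeasurable
      rw [← integrable_norm_rpow_iff h1 hp0 ENNReal.ofReal_ne_top]
      refine (hUp p hp).congr (Eventually.of_forall fun x => ?_)
      simp only [Complex.norm_real, Real.norm_eq_abs]
      rw [abs_of_nonneg (hU0 x), ENNReal.toReal_ofReal hp.le]
    · exact memLp_indicator_const _ measurableSet_ball _ (Or.inr hfinB)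
  · intro γ σ hγ hσ hσd
    have h1 := Helper31_CP.tendsto_main d hd γ σ hγ hσ hσd (fun ħ => Helper31_CP.vpot_lin hd ħ)
    refine h1.congr' ?_
    filter_upwards [self_mem_nhdsWithin] with ħ hħ
    congr 1
    unfold Helper31_CP.eSum eigSum weight
    refine tsum_congr fun E => ?_
    by_cases hE : E ∈ halfLine
    · rw [Set.indicator_of_notMem (by exact fun h => h hE),
        Set.indicator_of_notMem (by exact fun h => h hE)]
    · rw [Set.indicator_of_mem (by exact hE), Set.indicator_of_mem (by exact hE)]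
      congr 1
      have := hfin ħ hħ E hE
      have h2 : Helper31_CP.mult (Helper31_CP.IsHu ħ (Helper31_CP.Vpot : EE d → ℂ)) E =
          ((algMult ħ (pot d) E : ℕ) : ℕ∞) := by
        have h3 : Helper31_CP.gen (Helper31_CP.IsHu ħ (Helper31_CP.Vpot : EE d → ℂ)) E =
            genSpace ħ (pot d) E := by
          rw [pot_eq]
          rfl
        have h4 : Module.rank ℂ (Helper31_CP.gen
            (Helper31_CP.IsHu ħ (Helper31_CP.Vpot : EE d → ℂ)) E) =
            Module.rank ℂ (genSpace ħ (pot d) E) := by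
          rw [pot_eq]
          rfl
        unfold Helper31_CP.mult algMult
        rw [h4, ← Module.finrank_eq_rank]
        simp
      rw [h2]
      simp

end

end Pool.Agent.Results.MP_c84763_mp.FullAnswer
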